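import Pool.Agent.K7.H56.Iface2
import Pool.Agent.R430.B8

/-!
# The sum over the ideal classes
-/

set_option autoImplicit false

open Complex NumberField IsDedekindDomain
open scoped PeriodPair nonZeroDivisors

namespace Pool.Agent.K7.H70.CL

open Pool.Agent.K7.H56
open Pool.Agent.R430
open Pool.Agent.Y696 Pool.Agent.W192.HK Pool.Agent.TH936.CM H667R3
open Pool.Agent.Y688 (NI HL euler v_sub_one v_root)

section
variable {N : Type} [Field N] [NumberField N]
variable {n : ℕ} {X : Ideal (𝓞 N) → ℂ} {ι : Pool.Agent.Y688.RR →+* 𝓞 N}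
  {a : ClassGroup (𝓞 N) → Ideal (𝓞 N)} {f : ClassGroup (𝓞 N) → ℂ → ℂ}

lemma Fe_thI (X : Ideal (𝓞 N) → ℂ) (a : Ideal (𝓞 N)) (s : ℂ) (α : 𝓞 N) [Decidable (α ∈ a)] :
    Fe ι (thI X a) s α = gI ι X s (Ideal.span {α}) * (if α ∈ a then 1 else 0) := by
  unfold Fe gI
  by_cases h2 : α ∈ a
  · rw [thI_pos h2, if_pos h2]
    ring
  · rw [thI_neg h2, if_neg h2]
    ring

/-- the sum over the classes -/
noncomputable def SC (ι : Pool.Agent.Y688.RR →+* 𝓞 N) (X : Ideal (𝓞 N) → ℂ)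
    (a : ClassGroup (𝓞 N) → Ideal (𝓞 N)) (f : ClassGroup (𝓞 N) → ℂ → ℂ) (s : ℂ) : ℂ :=
  ∑ c, (gI ι X s (a c))⁻¹ * f c s

lemma gI_inv_diff (hX : IC n X) (ha : Reps (6 * n) a) (c : ClassGroup (𝓞 N)) :
    Differentiable ℂ (fun s => (gI ι X s (a c))⁻¹) := by
  refine Differentiable.inv ?_ (Reps.gne hX ha · c)
  unfold gI
  refine Differentiable.const_mul ?_ _
  have hN : ((Ideal.absNorm (a c) : ℕ) : ℂ) ≠ 0 := by
    rw [Ne, Nat.cast_eq_zero, Ideal.absNorm_eq_zero_iff]
    exact ha.ne c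
  exact (differentiable_id.neg).const_cpow (Or.inl hN)

theorem SC_VV (hX : IC n X) (ha : Reps (6 * n) a) (hf : ∀ c, PV ι (thI X (a c)) (f c)) :
    VV ι X (SC ι X a f) := by
  refine ⟨fun z hz => ?_, ?_, fun s hs => ?_⟩
  · unfold SC
    refine MeromorphicAt.fun_sum fun c _ => ?_
    exact (((gI_inv_diff hX ha c).analyticAt z).meromorphicAt).mul ((hf c).mero z hz)
  · unfold SC
    refine Finset.analyticAt_fun_sum _ fun c _ => ?_
    exact ((gI_inv_diff hX ha c).analyticAt 1).mul (hf c).an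
  · classical
    have key : ∀ c : ClassGroup (𝓞 N), HasSum (fun I : NI (𝓞 N) => if cls I = c then gI ι X s I.1
        else 0) ((gI ι X s (a c))⁻¹ * f c s) := by
      intro c
      have h1 := (hf c).sum s hs
      have h2 : HasSum (fun J : PI (𝓞 N) => gI ι X s J.1 * (if J.1 ≤ a c then 1 else 0))
          (f c s) := by
        refine h1.congr_fun fun J => ?_
        rw [Fe_thI, gp_span]
        congr 1
        have h4 : J.1 ≤ a c ↔ gp J ∈ a c := by
          rw [← Ideal.span_singleton_le_iff_mem, gp_span]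
        simp only [h4]
      let S := {I : NI (𝓞 N) // cls I = c}
      let g : S → PI (𝓞 N) := fun I => ⟨I.1.1 * a c, mul_ne_zero I.1.2 (ha.ne c),
        (ha.pr c I.1).1 I.2⟩
      have hg : Function.Injective g := by
        intro I J hIJ
        have h4 : I.1.1 * a c = J.1.1 * a c := congrArg Subtype.val hIJ
        exact Subtype.ext (Subtype.ext (mul_right_cancel₀ (ha.ne c) h4))
      have h5 : HasSum ((fun J : PI (𝓞 N) => gI ι X s J.1 * (if J.1 ≤ a c then 1 else 0)) ∘ g)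
          (f c s) := by
        refine (hg.hasSum_iff fun J hJ => ?_).2 h2
        rw [if_neg, mul_zero]
        intro h6
        apply hJ
        obtain ⟨I, hI⟩ := Ideal.dvd_iff_le.2 h6
        have hI0 : I ≠ ⊥ := by
          rintro rfl
          rw [Ideal.mul_bot] at hI
          exact J.2.1 hI
        refine ⟨⟨⟨I, hI0⟩, (ha.pr c _).2 ?_⟩, Subtype.ext ?_⟩
        · have := J.2.2
          rw [hI, mul_comm] at this
          exact this
        · show I * a c = J.1
          rw [hI, mul_comm]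
      have h6 : HasSum (fun I : S => gI ι X s I.1.1) ((gI ι X s (a c))⁻¹ * f c s) := by
        refine (h5.mul_left (gI ι X s (a c))⁻¹).congr_fun fun I => ?_
        have h7 := Reps.gne (ι := ι) hX ha s c
        show gI ι X s I.1.1 = (gI ι X s (a c))⁻¹ * (gI ι X s (I.1.1 * a c) *
          (if I.1.1 * a c ≤ a c then 1 else 0))
        rw [if_pos (Ideal.mul_le_right : I.1.1 * a c ≤ a c), mul_one, gI_mulx hX]
        field_simp
      have h7 := (Subtype.val_injective (p := fun I : NI (𝓞 N) => cls I = c)).hasSum_iff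
        (f := fun I : NI (𝓞 N) => if cls I = c then gI ι X s I.1 else 0)
        (a := (gI ι X s (a c))⁻¹ * f c s) (fun I hI => by
          rw [if_neg]
          intro h8
          exact hI ⟨⟨I, h8⟩, rfl⟩)
      rw [← h7]
      refine h6.congr_fun fun I => ?_
      simp only [Function.comp_apply]
      rw [if_pos I.2]
    have h4 := hasSum_sum (s := Finset.univ) fun c _ => key c
    unfold SC
    refine h4.congr_fun fun I => ?_
    rw [Finset.sum_ite_eq]
    simp

lemma thI_mlt (hX : IC n X) {M : ℕ} (hnM : n ∣ M) {b : Ideal (𝓞 N)} (hMa : (M : 𝓞 N) ∈ b) :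
    Mlt M (thI X b) := by
  intro l hl
  refine ⟨X (Ideal.span {l}), ?_, hX.thI_mul hMa hl⟩
  have h4 : IsCoprime (Ideal.span {l}) (Ideal.span {(n : 𝓞 N)}) := by
    rw [Ideal.isCoprime_span_singleton_iff]
    obtain ⟨k, hk⟩ := hnM
    rw [hk] at hl
    push_cast at hl
    exact (IsCoprime.mul_right_iff.1 hl).1
  exact hX.pow _ h4

variable {Γ : Type} [LinearOrderedCommGroupWithZero Γ] {v : Valuation ℂ Γ}

lemma thI_le (hX : IC n X) (h2 : v 2 < 1) (b : Ideal (𝓞 N)) (α : 𝓞 N) : v (thI X b α) ≤ 1 := by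
  by_cases h4 : α ∈ b
  · rw [thI_pos h4]
    by_cases h5 : IsCoprime (Ideal.span {α}) (Ideal.span {(n : 𝓞 N)})
    · obtain ⟨k, hk⟩ := hX.pow _ h5
      exact (v_root (pow_ne_zero k two_ne_zero) hk).le
    · rw [hX.zero _ h5, map_zero]
      exact zero_le_one
  · rw [thI_neg h4, map_zero]
    exact zero_le_one

lemma thI_lt (hX : IC n X) (h2 : v 2 < 1) (b : Ideal (𝓞 N)) (α : 𝓞 N) :
    v (thI X b α - thI (X0 n) b α) < 1 := by
  by_cases h4 : α ∈ b
  · rw [thI_pos h4, thI_pos h4]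
    by_cases h5 : IsCoprime (Ideal.span {α}) (Ideal.span {(n : 𝓞 N)})
    · obtain ⟨k, hk⟩ := hX.pow _ h5
      rw [X0_pos h5]
      exact v_sub_one h2 k hk
    · rw [hX.zero _ h5, X0_neg h5, sub_zero, map_zero]
      exact zero_lt_one
  · rw [thI_neg h4, thI_neg h4, sub_zero, map_zero]
    exact zero_lt_one

end

/-- **TASK CLS.** -/
theorem core3 (pz : PZ) : Core3 := by
  intro N _ _ ι d hd h3d hU n X hX hn
  obtain ⟨r, rfl⟩ : ∃ r, d = r + 1 := by
    cases d with
    | zero => exact absurd (dvd_zero 3) h3d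
    | succ r => exact ⟨r, rfl⟩
  have hn0 : n ≠ 0 := by
    obtain ⟨k, hk⟩ := hn
    omega
  obtain ⟨a, ha⟩ := exists_reps (N := N) (n := 6 * n) (by omega)
  obtain ⟨M, h3, hM, hnM, hMa⟩ := exists_mod hn ha
  have key := fun c : ClassGroup (𝓞 N) => pz N ι r hd h3d hU M (thI X (a c)) (thI (X0 n) (a c))
    (hX.chw h3 hM hnM (hMa c)) ((X0_ic n).chw h3 hM hnM (hMa c)) (thI_mlt hX hnM (hMa c))
    (thI_mlt (X0_ic n) hnM (hMa c))
  choose f f0 hf hf0 hval using key
  refine ⟨SC ι X a f, SC ι (X0 n) a f0, SC_VV hX ha hf, SC_VV (X0_ic n) ha hf0, ?_⟩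
  intro L Ω hL Γ _ v hv
  have hval' := fun c => hval c L Ω hL Γ v hv (thI_le hX hv (a c)) (thI_lt hX hv (a c))
  have hΩ : v Ω ^ (r + 1) ≠ 0 := pow_ne_zero _ ((Valuation.ne_zero_iff _).2 hL.ne)
  constructor
  · unfold SC
    refine v.map_sum_le fun c _ => ?_
    obtain ⟨r1, r2⟩ := v_gI (ι := ι) hX hv ha c
    rw [map_mul, r1, one_mul]
    exact (hval' c).1
  · unfold SC
    rw [← Finset.sum_sub_distrib]
    refine v.map_sum_lt hΩ fun c _ => ?_
    obtain ⟨r1, r2⟩ := v_gI (ι := ι) hX hv ha c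
    have h0 : v (f0 c 1) ≤ v Ω ^ (r + 1) := by
      have e : f0 c 1 = f c 1 - (f c 1 - f0 c 1) := by ring
      rw [e]
      exact (v.map_sub _ _).trans (max_le (hval' c).1 (hval' c).2.le)
    have e : (gI ι X 1 (a c))⁻¹ * f c 1 - (gI ι (X0 n) 1 (a c))⁻¹ * f0 c 1 =
        (gI ι X 1 (a c))⁻¹ * (f c 1 - f0 c 1) +
        ((gI ι X 1 (a c))⁻¹ - (gI ι (X0 n) 1 (a c))⁻¹) * f0 c 1 := by
      ring
    rw [e]
    refine (v.map_add _ _).trans_lt (max_lt ?_ ?_)
    · rw [map_mul, r1, one_mul]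
      exact (hval' c).2
    · rw [map_mul]
      calc _ ≤ v ((gI ι X 1 (a c))⁻¹ - (gI ι (X0 n) 1 (a c))⁻¹) * v Ω ^ (r + 1) := by gcongr
        _ < 1 * v Ω ^ (r + 1) := mul_lt_mul_of_pos_right r2 (zero_lt_iff.2 hΩ)
        _ = v Ω ^ (r + 1) := one_mul _

end Pool.Agent.K7.H70.CL
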